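import Pool.Agent.R864.WittInst

/-!
# Homomorphisms from `U(W_{-1})` and `U(W)` to Weyl algebras which do not factor

The homomorphism given by the action of `W_{-1}` on the symmetric square of the line,
`f∂ ↦ (f(x₁) + f(x₂)) ∂_s + (f(x₁) x₂ + f(x₂) x₁) ∂_p` with `s = x₁ + x₂`, `p = x₁ x₂`, does not
factor through any of the homomorphisms `Ψ_n`; the same holds for `W` and the symmetric square of
the punctured line.
-/

noncomputable section

namespace Pool.Agent.Results.MP_8879ae_al.SymmetricSquare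

open Pool.Agent.R864.WittW

/-- The `k`-th Weyl algebra `A_k`, realised as the algebra of operators on `ℂ[t_1, …, t_k]`
generated by the multiplications and the partial derivatives. -/
def A (k : ℕ) : Type := DOp (MvPolynomial (Fin k) ℂ) (polyChart k).D

instance (k : ℕ) : Ring (A k) :=
  (inferInstance : Ring (DOp (MvPolynomial (Fin k) ℂ) (polyChart k).D))

/-- `Ã_k`: the algebra of operators on `ℂ[t_1^{±1}, …, t_k^{±1}]` generated by the
multiplications and the partial derivatives. -/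
def A' (k : ℕ) : Type := DOp (Laur k) (laurChart k).D

instance (k : ℕ) : Ring (A' k) := (inferInstance : Ring (DOp (Laur k) (laurChart k).D))

/-- `U(W_{-1})`, where `W_{-1} = ℂ[t]∂`. -/
def UW₁ : Type := UU (VF (Polynomial.derivative' (R := ℂ)))

instance : Ring UW₁ := (inferInstance : Ring (UU (VF (Polynomial.derivative' (R := ℂ)))))

/-- `U(W)`, where `W = ℂ[t, t⁻¹]∂`. -/
def UW : Type := UU (VF dL)

instance : Ring UW := (inferInstance : Ring (UU (VF dL)))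

/-- `A_ℓ ⊗ U(g_n)`. -/
def T₁ {ℓ : ℕ} (n : Fin ℓ → ℕ) : Type := (polyChart ℓ).Target n

instance {ℓ : ℕ} (n : Fin ℓ → ℕ) : Ring (T₁ n) := (inferInstance : Ring ((polyChart ℓ).Target n))

/-- `Ã_ℓ ⊗ U(g_n)`. -/
def T {ℓ : ℕ} (n : Fin ℓ → ℕ) : Type := (laurChart ℓ).Target n

instance {ℓ : ℕ} (n : Fin ℓ → ℕ) : Ring (T n) := (inferInstance : Ring ((laurChart ℓ).Target n))

/-- `Ψ_n : U(W_{-1}) → A_ℓ ⊗ U(g_n)`. -/
def Psi₁ {ℓ : ℕ} (n : Fin ℓ → ℕ) : UW₁ →+* T₁ n := (polyChart ℓ).PsiR n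

/-- `Ψ_n : U(W) → Ã_ℓ ⊗ U(g_n)`. -/
def Psi {ℓ : ℕ} (n : Fin ℓ → ℕ) : UW →+* T n := (laurChart ℓ).PsiR n

/-- There is a ring homomorphism `φ : U(W_{-1}) → A_2` that does not factor through any `Ψ_n`
(for no `ℓ` and no `n`), and a ring homomorphism `φ : U(W) → Ã_2` that does not factor through
any `Ψ_n`. -/
theorem result :
    (∃ φ : UW₁ →+* A 2, ∀ (ℓ : ℕ) (n : Fin ℓ → ℕ),
      ¬ ∃ φb : T₁ n →+* A 2, φ = φb.comp (Psi₁ n)) ∧
    (∃ φ : UW →+* A' 2, ∀ (ℓ : ℕ) (n : Fin ℓ → ℕ),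
      ¬ ∃ φb : T n →+* A' 2, φ = φb.comp (Psi n)) := by
  refine ⟨⟨polySym.phi.toRingHom, ?_⟩, ⟨laurSym.phi.toRingHom, ?_⟩⟩
  · rintro ℓ n ⟨φb, h⟩
    exact polySym.not_factor poly_gen poly_root (polyChart ℓ) n φb h
  · rintro ℓ n ⟨φb, h⟩
    exact laurSym.not_factor laur_gen laur_root (laurChart ℓ) n φb h

end Pool.Agent.Results.MP_8879ae_al.SymmetricSquare
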